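import Pool.Agent.H66.FA.T

/-!
# Row ACC: growth of the norm from the sign of the second derivative
-/

set_option autoImplicit false

open Matrix

namespace Pool.Agent.H69.FA

open Pool.Agent.H66.FA Pool.Agent.H63.Fins MeasureTheory Filter Topology

private lemma right_pos {g g' : ℝ → ℝ} (hg : ∀ t, HasDerivAt g (g' t) t)
    (hpos : ∀ t, g t = 0 → 0 < g' t) {t : ℝ} (ht : 0 ≤ g t) : ∀ᶠ s in 𝓝[>] t, 0 < g s := by
  rcases ht.lt_or_eq with h | h
  · exact (((hg t).continuousAt.eventually (lt_mem_nhds h)).filter_mono nhdsWithin_le_nhds)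
  · have h1 := hasDerivAt_iff_tendsto_slope.1 (hg t)
    have h2 : ∀ᶠ s in 𝓝[≠] t, 0 < slope g t s := h1.eventually (lt_mem_nhds (hpos t h.symm))
    have h3 : ∀ᶠ s in 𝓝[>] t, 0 < slope g t s :=
      h2.filter_mono (nhdsWithin_mono _ fun s hs => ne_of_gt hs)
    filter_upwards [h3, self_mem_nhdsWithin] with s hs hst
    rw [slope_def_field, ← h, sub_zero] at hs
    have hst' : 0 < s - t := sub_pos.2 hst
    exact (div_pos_iff_of_pos_right hst').1 hs

private lemma left_neg {g g' : ℝ → ℝ} (hg : ∀ t, HasDerivAt g (g' t) t) {t : ℝ}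
    (h0 : g t = 0) (hp : 0 < g' t) : ∃ s < t, g s < 0 := by
  have h1 := hasDerivAt_iff_tendsto_slope.1 (hg t)
  have h2 : ∀ᶠ s in 𝓝[≠] t, 0 < slope g t s := h1.eventually (lt_mem_nhds hp)
  have h3 : ∀ᶠ s in 𝓝[<] t, 0 < slope g t s :=
    h2.filter_mono (nhdsWithin_mono _ fun s hs => ne_of_lt hs)
  obtain ⟨s, hs, hst⟩ := (h3.and self_mem_nhdsWithin).exists
  refine ⟨s, hst, ?_⟩
  rw [slope_def_field, h0, sub_zero] at hs
  have hst' : s - t < 0 := sub_neg.2 hst
  by_contra hcon
  push Not at hcon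
  have := div_nonpos_of_nonneg_of_nonpos hcon hst'.le
  linarith

private lemma all_neg {g g' : ℝ → ℝ} (hg : ∀ t, HasDerivAt g (g' t) t)
    (hpos : ∀ t, g t = 0 → 0 < g' t) {t1 : ℝ} (h1 : g t1 < 0) : ∀ t ≤ t1, g t < 0 := by
  intro t ht
  by_contra hcon
  push Not at hcon
  have hgc : Continuous g := continuous_iff_continuousAt.2 fun t => (hg t).continuousAt
  obtain ⟨S, hS⟩ : ∃ S : Set ℝ, S = Set.Icc t t1 ∩ g ⁻¹' Set.Ici 0 := ⟨_, rfl⟩
  have hSc : IsCompact S := by
    rw [hS]; exact isCompact_Icc.inter_right (isClosed_Ici.preimage hgc)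
  have hSn : S.Nonempty := ⟨t, by rw [hS]; exact ⟨⟨le_rfl, ht⟩, hcon⟩⟩
  have hmem := hSc.sSup_mem hSn
  obtain ⟨t2, ht2⟩ : ∃ t2, t2 = sSup S := ⟨_, rfl⟩
  rw [← ht2] at hmem
  have hmem' := hmem
  rw [hS] at hmem'
  obtain ⟨⟨ha, hb⟩, hc⟩ := hmem'
  have hlt : t2 < t1 := by
    rcases hb.lt_or_eq with h | h
    · exact h
    · rw [h] at hc
      exact absurd hc (not_le.2 h1)
  have hev := (right_pos hg hpos hc).and (Ioo_mem_nhdsGT hlt)
  obtain ⟨s, hs1, hs2⟩ := hev.exists
  have hsS : s ∈ S := by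
    rw [hS]; exact ⟨⟨ha.trans hs2.1.le, hs2.2.le⟩, hs1.le⟩
  have := le_csSup hSc.bddAbove hsS
  rw [← ht2] at this
  exact absurd hs2.1 (not_lt.2 this)

theorem pf_ACC (h2 : T_REG) : T_ACC := by
  intro m B E L hL hE hyp
  obtain ⟨hLc, -, hd1, -, -, -, hreg⟩ := h2 (m + 1) L hL
  have hopen : IsOpen {y : V (m + 1) | y ≠ 0} := isOpen_ne
  -- positivity
  have hLpos : ∀ y : V (m + 1), y ≠ 0 → 0 < L y := by
    intro y hy
    have hcy : ∀ c : ℝ, 0 < c → c • y ≠ 0 := fun c hc => smul_ne_zero hc.ne' hy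
    have hline : ∀ c : ℝ, HasDerivAt (fun c : ℝ => c • y) y c := by
      intro c
      have := (hasDerivAt_id c).smul_const y
      simpa using this
    have e1 : ∀ c : ℝ, 0 < c → d1 L (c • y) y = 2 * c * L y := by
      intro c hc
      have h3 : HasDerivAt (fun c : ℝ => L (c • y)) (fderiv ℝ L (c • y) y) c :=
        (hreg (c • y) (hcy c hc)).1.comp_hasDerivAt c (hline c)
      have h4 : HasDerivAt (fun c : ℝ => c ^ 2 * L y) (2 * c * L y) c := by
        have := (hasDerivAt_pow 2 c).mul_const (L y)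
        simpa using this
      have h5 : (fun c : ℝ => L (c • y)) =ᶠ[𝓝 c] fun c : ℝ => c ^ 2 * L y := by
        filter_upwards [lt_mem_nhds hc] with c' hc'
        exact hL.homog y c' hc'
      exact (h3.congr_of_eventuallyEq h5.symm).unique h4
    have h6 : DifferentiableAt ℝ (fun z => d1 L z y) y :=
      ((hd1 y).differentiableOn (by simp)).differentiableAt (hopen.mem_nhds hy)
    have h6' : HasFDerivAt (fun z => d1 L z y) (fderiv ℝ (fun z => d1 L z y) y)
        ((1 : ℝ) • y) := by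
      rw [one_smul]; exact h6.hasFDerivAt
    have h7 := h6'.comp_hasDerivAt (1 : ℝ) (hline 1)
    have h8 : HasDerivAt (fun c : ℝ => 2 * c * L y) (2 * L y) 1 := by
      have := ((hasDerivAt_id (1 : ℝ)).const_mul 2).mul_const (L y)
      simpa using this
    have h9 : ((fun z => d1 L z y) ∘ fun c : ℝ => c • y) =ᶠ[𝓝 1]
        fun c : ℝ => 2 * c * L y := by
      filter_upwards [lt_mem_nhds (zero_lt_one (α := ℝ))] with c' hc'
      exact e1 c' hc'
    have h10 := (h7.congr_of_eventuallyEq h9.symm).unique h8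
    rw [(hreg y hy).2.1 y y] at h10
    have := hL.pos y y hy hy
    linarith
  intro v hv hv0
  have hEne : ∀ t, E t v ≠ 0 := by
    intro t ht
    have h3 := hE.add (-t) t v
    rw [ht, map_zero, neg_add_cancel, hE.zero] at h3
    exact hv h3
  -- the function
  obtain ⟨h, hh⟩ : ∃ h : ℝ → ℝ, h = fun t => L (E t v) := ⟨_, rfl⟩
  have hder : ∀ t, HasDerivAt h (d1 L (E t v) (B (E t v))) t := by
    intro t
    rw [hh]
    exact (hreg (E t v) (hEne t)).1.comp_hasDerivAt t (hE.der t v)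
  have hdh : deriv h = fun t => d1 L (E t v) (B (E t v)) := funext fun t => (hder t).deriv
  have hsm : ContDiff ℝ (⊤ : ℕ∞) h := by
    rw [hh]
    have h3 : ContDiff ℝ (⊤ : ℕ∞) fun t : ℝ => E t v :=
      hE.smooth.comp (contDiff_id.prodMk contDiff_const)
    exact hL.smooth.comp_contDiff h3 hEne
  have hdd : ∀ t, HasDerivAt (deriv h) (deriv (deriv h) t) t := by
    intro t
    have h3 := (contDiff_infty_iff_deriv.1 hsm).2
    exact ((h3.differentiable (by simp)) t).hasDerivAt
  have hposd : ∀ t, deriv h t = 0 → 0 < deriv (deriv h) t := by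
    intro t ht
    have h3 : d1 L (E t v) (B (E t v)) = 0 := by rw [hdh] at ht; exact ht
    have h4 := hyp (E t v) (hEne t) (by rw [hE.e0]; exact hv0) h3
    have h5 : (fun s => L (E s (E t v))) = fun s => h (s + t) := by
      funext s
      rw [hh]
      dsimp only
      rw [hE.add]
    have h6 : deriv (fun s => h (s + t)) = fun s => deriv h (s + t) :=
      funext fun s => deriv_comp_add_const _ _ _
    have h7 : deriv (fun s => deriv h (s + t)) 0 = deriv (deriv h) (0 + t) :=
      deriv_comp_add_const _ _ _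
    rw [h5, h6, h7, zero_add] at h4
    exact h4
  by_contra hcon
  push Not at hcon
  have hz : deriv h 0 ≤ 0 := by
    rw [hdh]
    dsimp only
    rw [hE.zero]
    exact hcon
  obtain ⟨t1, ht1⟩ : ∃ t1, deriv h t1 < 0 := by
    rcases hz.lt_or_eq with h3 | h3
    · exact ⟨0, h3⟩
    · obtain ⟨s, -, hs⟩ := left_neg hdd h3 (hposd 0 h3)
      exact ⟨s, hs⟩
  have hneg := all_neg hdd hposd ht1
  have hanti : AntitoneOn h (Set.Iic t1) := by
    refine antitoneOn_of_deriv_nonpos (convex_Iic t1) hsm.continuous.continuousOn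
      (fun t _ => (hder t).differentiableAt.differentiableWithinAt) ?_
    intro t ht
    rw [interior_Iic] at ht
    exact (hneg t (le_of_lt ht)).le
  have hlim : Tendsto (fun t => h (-t)) atTop (𝓝 0) := by
    have h3 := (hLc.tendsto 0).comp (hE.lim v hv0)
    rw [hL.zero] at h3
    rw [hh]
    exact h3
  have hge : ∀ᶠ t in atTop, h t1 ≤ h (-t) := by
    filter_upwards [eventually_ge_atTop (-t1)] with t ht
    exact hanti (Set.mem_Iic.2 (by linarith)) (Set.mem_Iic.2 le_rfl) (by linarith)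
  have hle := ge_of_tendsto hlim hge
  have hp : 0 < h t1 := by rw [hh]; exact hLpos _ (hEne t1)
  linarith

end Pool.Agent.H69.FA
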